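import Pool.Agent.Q308.Nm.Core3

/-!
# Under CH, the Laver-like Namba forcing adds no cofinal branch to an `ω₁`-tree
-/

namespace Pool.Agent.Results.MP_096ca0_lc.NmPrimeNoBranch

open Ordinal Cardinal Set Pool.Agent.Q308.Nm

theorem onLevel_unique {T : Type} [PartialOrder T] {t : T} {α β : Ordinal.{0}}
    (h : OnLevel t α) (h' : OnLevel t β) : α = β := by
  obtain ⟨h, rfl⟩ := h
  obtain ⟨h', rfl⟩ := h'
  rfl

theorem exists_onLevel {T : Type} [PartialOrder T] (hT : IsTree T) (t : T) :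
    ∃ α, OnLevel t α := ⟨_, hT t, rfl⟩

theorem onLevel_of_lt {T : Type} [PartialOrder T] {s t : T} (hst : s < t) {α β : Ordinal.{0}}
    (hs : OnLevel s α) (ht : OnLevel t β) : α < β := by
  obtain ⟨h, rfl⟩ := hs
  obtain ⟨h', rfl⟩ := ht
  have h1 : @Ordinal.type {x : T // x < s} (· < ·) h
      = @typein {x : T // x < t} (· < ·) h' ⟨s, hst⟩ := by
    rw [← type_subrel]
    refine Ordinal.type_eq.2 ⟨?_⟩
    refine ⟨⟨fun x => ⟨⟨x.1, x.2.trans hst⟩, x.2⟩, fun x => ⟨x.1.1, x.2⟩, fun x => rfl,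
      fun x => rfl⟩, ?_⟩
    intro a b
    rfl
  rw [h1]
  exact typein_lt_type _ _

theorem exists_lt_onLevel {T : Type} [PartialOrder T] {t : T} {α β : Ordinal.{0}}
    (ht : OnLevel t β) (hα : α < β) : ∃ s < t, OnLevel s α := by
  obtain ⟨h', rfl⟩ := ht
  let a := @enum {x : T // x < t} (· < ·) h' ⟨α, hα⟩
  have ha : @typein {x : T // x < t} (· < ·) h' a = α := typein_enum _ hα
  rw [← type_subrel] at ha
  have e : (fun x y : {x : T // x < a.1} => x < y) ≃r
      (Subrel (fun x y : {x : T // x < t} => x < y) (fun b => b < a)) := by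
    refine ⟨⟨fun x => ⟨⟨x.1, x.2.trans a.2⟩, x.2⟩, fun x => ⟨x.1.1, x.2⟩, fun x => rfl,
      fun x => rfl⟩, ?_⟩
    intro a b
    rfl
  haveI : IsWellOrder {x : T // x < a.1} (· < ·) := e.toRelEmbedding.isWellOrder
  refine ⟨a.1, a.2, this, ?_⟩
  rw [← ha]
  exact Ordinal.type_eq.2 ⟨e⟩

theorem lt_of_hasHeight {T : Type} [PartialOrder T] {η : Ordinal.{0}} (hη : HasHeight T η)
    {t : T} {α : Ordinal.{0}} (ht : OnLevel t α) : α < η := by
  by_contra hcon
  push Not at hcon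
  rcases hcon.lt_or_eq with hlt | heq
  · obtain ⟨s, _, hs⟩ := exists_lt_onLevel ht hlt
    have : s ∈ Level T η := hs
    rw [hη.1] at this
    exact this
  · subst heq
    have : t ∈ Level T η := ht
    rw [hη.1] at this
    exact this

theorem countable_Iio_of_lt {δ : Ordinal.{0}} (h : δ < ω₁) : (Set.Iio δ).Countable := by
  rw [← Cardinal.le_aleph0_iff_set_countable, Cardinal.mk_Iio_ordinal]
  have h3 : δ.card < ℵ₁ := by
    rw [← Cardinal.lt_ord, Cardinal.ord_aleph]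
    exact h
  have h4 : δ.card ≤ ℵ₀ := by
    rw [← Order.lt_succ_iff, Cardinal.succ_aleph0]
    exact h3
  simpa using Cardinal.lift_le.{1}.2 h4

theorem succ_lt_omega_one {δ : Ordinal.{0}} (h : δ < ω₁) : Order.succ δ < ω₁ :=
  (Cardinal.isSuccLimit_omega 1).succ_lt h

theorem mk_le_aleph_one {T : Type} [PartialOrder T] (hT : IsOmegaOneTree T) : #T ≤ ℵ₁ := by
  obtain ⟨hTt, hTη, hTc⟩ := hT
  choose lv hlv using fun t : T => exists_onLevel hTt t
  have hω : #((ω₁ : Ordinal.{0}).ToType) = ℵ₁ := by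
    rw [Cardinal.mk_toType]
    simp
  let f : T → (ω₁ : Ordinal.{0}).ToType := fun t =>
    Ordinal.ToType.mk ⟨lv t, lt_of_hasHeight hTη (hlv t)⟩
  have hf : ∀ t t', f t = f t' → lv t = lv t' := by
    intro t t' h
    have h1 := (Ordinal.ToType.mk (o := (ω₁ : Ordinal.{0}))).injective h
    exact congrArg Subtype.val h1
  have h2 : (Set.univ : Set T) = ⋃ w : (ω₁ : Ordinal.{0}).ToType, f ⁻¹' {w} := by
    ext t
    simp
  have h3 : #(Set.univ : Set T) ≤ ℵ₁ := by
    rw [h2]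
    refine (Cardinal.mk_iUnion_le _).trans ?_
    rw [hω]
    have h4 : ⨆ w : (ω₁ : Ordinal.{0}).ToType, #(f ⁻¹' {w}) ≤ ℵ₁ := by
      apply ciSup_le'
      intro w
      by_cases hw : (f ⁻¹' {w}).Nonempty
      · obtain ⟨t, ht⟩ := hw
        have h5 : f ⁻¹' {w} ⊆ Level T (lv t) := by
          intro t' ht'
          have h6 : f t' = f t := by rw [show f t' = w from ht', show f t = w from ht]
          have h7 := hlv t'
          rw [hf _ _ h6] at h7
          exact h7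
        have h8 := ((hTc (lv t)).mono h5)
        rw [← Cardinal.le_aleph0_iff_set_countable] at h8
        exact h8.trans (Cardinal.aleph0_le_aleph 1)
      · rw [Set.not_nonempty_iff_eq_empty] at hw
        rw [hw]
        simp
    exact (mul_le_mul' le_rfl h4).trans
      (Cardinal.mul_eq_self (Cardinal.aleph0_le_aleph 1)).le
  rwa [Cardinal.mk_univ] at h3

theorem mk_seq_le (CH : (2 : Cardinal.{0}) ^ ℵ₀ = ℵ₁) {T : Type} (hT : #T ≤ ℵ₁) :
    #(ℕ → Option T) ≤ ℵ₁ := by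
  have h1 : #(Option T) ≤ ℵ₁ := by
    rw [Cardinal.mk_option]
    refine (add_le_add hT (Cardinal.one_le_aleph0.trans (Cardinal.aleph0_le_aleph 1))).trans ?_
    exact (Cardinal.add_eq_self (Cardinal.aleph0_le_aleph 1)).le
  rw [← Cardinal.power_def, Cardinal.mk_nat]
  calc #(Option T) ^ ℵ₀ ≤ ℵ₁ ^ ℵ₀ := Cardinal.power_le_power_right h1
    _ = (2 ^ ℵ₀) ^ ℵ₀ := by rw [CH]
    _ = 2 ^ (ℵ₀ * ℵ₀) := by rw [Cardinal.power_mul]
    _ = ℵ₁ := by rw [Cardinal.aleph0_mul_aleph0, CH]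

theorem mk_Om2 : #Om2 = ℵ_ 2 := by
  rw [Om2, Cardinal.mk_toType]
  simp

theorem isCond_iff {p : Set (List Om2)} : IsCond p ↔ IsC p := by
  constructor
  · rintro ⟨h1, s, hs, h2, h3⟩
    exact ⟨s, hs, h1, h2, h3⟩
  · rintro ⟨s, hs⟩
    exact ⟨hs.closed, s, hs.mem, hs.comp, hs.large⟩

/-- **Main theorem (ZFC + CH).**  The Laver-like Namba forcing `Nm'` adds no new cofinal branch to
any `ω₁`-tree of the ground model. -/
theorem result (CH : (2 : Cardinal.{0}) ^ ℵ₀ = ℵ₁) (T : Type) [PartialOrder T]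
    (hT : IsOmegaOneTree T) : AddsNoCofinalBranch NmPrime T := by
  have hmkT := mk_le_aleph_one hT
  have hmkω := mk_seq_le CH hmkT
  obtain ⟨hTt, hTη, hTc⟩ := hT
  intro σ p hσ p' hp'
  obtain ⟨hσ1, hσ2, hσ3⟩ := hσ
  -- the forcing relation on sets
  let F : Set (List Om2) → T → Prop := fun q v => ∃ h : IsCond q, FMeets (⟨q, h⟩ : NmPrime) (σ v)
  have hFR : FR F := by
    refine ⟨?_, ?_⟩
    · rintro q q' v hq hq' hqq' ⟨h, hm⟩
      refine ⟨isCond_iff.2 hq', fun r hr => hm r ?_⟩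
      exact le_trans hr hqq'
    · intro q v hq h
      refine ⟨isCond_iff.2 hq, fun r hr => ?_⟩
      obtain ⟨q'', h1, h2, h3, h4⟩ := h r.1 hr (isCond_iff.1 r.2)
      obtain ⟨r', hr', d, hd, hrd⟩ := h4 ⟨q'', h3⟩ le_rfl
      exact ⟨r', le_trans hr' h1, d, hd, hrd⟩
  obtain ⟨s, hs⟩ := isCond_iff.1 p'.2
  have hBR : BR (ι := Set.Iio (ω₁ : Ordinal.{0})) F (fun x y : T => x ≤ y)
      (fun α => Level T α.1) p'.1 := by
    refine ⟨?_, ?_⟩
    · rintro q hq hqC v v' ⟨h1, h2⟩ ⟨h1', h2'⟩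
      exact hσ1 v v' ⟨q, h1⟩ (le_trans (show (⟨q, h1⟩ : NmPrime) ≤ p' from hq) hp') h2 h2'
    · intro q hq hqC α _
      obtain ⟨r, hr, x, hx, hx'⟩ := hσ3 α.1 α.2 ⟨q, isCond_iff.2 hqC⟩
        (le_trans (show (⟨q, _⟩ : NmPrime) ≤ p' from hq) hp')
      exact ⟨r.1, hr, isCond_iff.1 r.2, x, hx, r.2, hx'⟩
  have hlvlt : ∀ (t : T) (α : Ordinal.{0}), OnLevel t α → α < ω₁ := fun t α h =>
    lt_of_hasHeight hTη h
  obtain ⟨q, hq, hqC, B, hB1, hB2⟩ := decided mk_Om2 hmkT hmkω hFR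
    (lev := fun α : Set.Iio (ω₁ : Ordinal.{0}) => Level T α.1)
    (le := fun x y : T => x ≤ y) (by
      intro v
      obtain ⟨α, hα⟩ := exists_onLevel hTt v
      exact ⟨⟨α, hlvlt v α hα⟩, hα⟩)
    (by
      intro α v hv v' hv' h
      by_contra hne
      rcases h with h | h
      · exact absurd (onLevel_of_lt (lt_of_le_of_ne h hne) hv hv') (lt_irrefl _)
      · exact absurd (onLevel_of_lt (lt_of_le_of_ne h (Ne.symm hne)) hv' hv) (lt_irrefl _))
    (by
      intro V hV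
      choose lv hlv using fun t : T => exists_onLevel hTt t
      haveI : Countable V := hV
      have hδ : (⨆ x : V, Order.succ (lv x.1)) < ω₁ := by
        apply Ordinal.iSup_lt_omega_one
        intro x
        exact succ_lt_omega_one (hlvlt _ _ (hlv _))
      refine ⟨⟨⨆ x : V, Order.succ (lv x.1), hδ⟩, hTη.2 _ hδ, hTc _, ?_⟩
      intro v hv u hu h
      rcases h with h | h
      · exact h
      · exfalso
        have h1 : lv v < ⨆ x : V, Order.succ (lv x.1) :=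
          (Order.lt_succ _).trans_le
            (Ordinal.le_iSup (fun x : V => Order.succ (lv x.1)) ⟨v, hv⟩)
        rcases h.lt_or_eq with h2 | h2
        · exact absurd (onLevel_of_lt h2 hu (hlv v)) h1.asymm
        · subst h2
          exact absurd (onLevel_unique hu (hlv u)) h1.ne')
    (by
      intro u a b hau hbu
      rcases hau.lt_or_eq with h1 | h1
      · rcases hbu.lt_or_eq with h2 | h2
        · haveI := hTt u
          rcases @trichotomous {s : T // s < u} (· < ·) _ ⟨a, h1⟩ ⟨b, h2⟩ with h | h | h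
          · exact Or.inl (le_of_lt (show a < b from h))
          · exact Or.inl (le_of_eq (congrArg Subtype.val h))
          · exact Or.inr (le_of_lt (show b < a from h))
        · rw [h2]
          exact Or.inl hau
      · rw [h1]
        exact Or.inr hbu)
    hs hBR
  have hqp' : (⟨q, isCond_iff.2 hqC⟩ : NmPrime) ≤ p' := hq
  have hqp := le_trans hqp' hp'
  have hFmem : ∀ v ∈ B, FMeets (⟨q, isCond_iff.2 hqC⟩ : NmPrime) (σ v) := by
    intro v hv
    obtain ⟨_, h⟩ := hB1 v hv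
    exact h
  have hmiss : ∀ v ∉ B, ∀ r ≤ (⟨q, isCond_iff.2 hqC⟩ : NmPrime), ¬ FMeets r (σ v) := by
    intro v hv r hr h
    exact hB2 v hv r.1 hr (isCond_iff.1 r.2) ⟨r.2, h⟩
  refine ⟨⟨q, isCond_iff.2 hqC⟩, hqp', B, ⟨?_, ?_, ?_⟩, hFmem, ?_⟩
  · intro x hx y hy _
    exact hσ1 x y _ hqp (hFmem x hx) (hFmem y hy)
  · intro x hx y hyx
    by_contra hy
    exact hmiss y hy _ le_rfl (hσ2 x y hyx _ hqp (hFmem x hx))
  · intro α hα
    obtain ⟨r, hr, x, hx, hx'⟩ := hσ3 α hα _ hqp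
    refine ⟨x, ?_, hx⟩
    by_contra hxB
    exact hmiss x hxB r hr hx'
  · intro v hv r hr hrd
    obtain ⟨d, hd, hrd⟩ := hrd
    apply hmiss v hv r hr
    intro r' hr'
    exact ⟨r', le_rfl, d, hd, le_trans hr' hrd⟩

end Pool.Agent.Results.MP_096ca0_lc.NmPrimeNoBranch
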